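import Mathlib
import Pool.Agent.TH775.AC.Stmts

set_option autoImplicit false

open Complex Topology Filter Metric PowerSeries

namespace Pool.Agent.TH775.AC

namespace CompS

open Pool.Agent.H713R2 (tc)

lemma ex_ball {f : ℂ → ℂ} (hf : AnalyticAt ℂ f 0) :
    ∃ r : ℝ, 0 < r ∧ DifferentiableOn ℂ f (ball 0 r) := by
  obtain ⟨r, hr, h⟩ := Metric.eventually_nhds_iff_ball.1 hf.eventually_analyticAt
  exact ⟨r, hr, fun x hx => (h x hx).differentiableAt.differentiableWithinAt⟩

lemma ex_ball2 {f g : ℂ → ℂ} (hf : AnalyticAt ℂ f 0) (hg : AnalyticAt ℂ g 0) :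
    ∃ r : ℝ, 0 < r ∧ DifferentiableOn ℂ f (ball 0 r) ∧ DifferentiableOn ℂ g (ball 0 r) := by
  obtain ⟨r, hr, h⟩ := ex_ball hf
  obtain ⟨r', hr', h'⟩ := ex_ball hg
  exact ⟨min r r', lt_min hr hr', h.mono (ball_subset_ball (min_le_left _ _)),
    h'.mono (ball_subset_ball (min_le_right _ _))⟩

lemma tc_congr {f g : ℂ → ℂ} (h : f =ᶠ[𝓝 0] g) : tc f = tc g := by
  funext k
  unfold tc
  rw [h.iteratedDeriv_eq]

lemma TS_congr {f g : ℂ → ℂ} (h : f =ᶠ[𝓝 0] g) : TS f = TS g := by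
  unfold TS
  rw [tc_congr h]

lemma TS_mul {f g : ℂ → ℂ} (hf : AnalyticAt ℂ f 0) (hg : AnalyticAt ℂ g 0) :
    TS (fun z => f z * g z) = TS f * TS g := by
  obtain ⟨r, hr, h1, h2⟩ := ex_ball2 hf hg
  ext n
  rw [PowerSeries.coeff_mul, TS, PowerSeries.coeff_mk, Pool.Agent.H713R2.tc_mul hr h1 h2]
  simp [TS]

lemma TS_add {f g : ℂ → ℂ} (hf : AnalyticAt ℂ f 0) (hg : AnalyticAt ℂ g 0) :
    TS (fun z => f z + g z) = TS f + TS g := by
  obtain ⟨r, hr, h1, h2⟩ := ex_ball2 hf hg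
  ext n
  have h := Pool.Agent.H713R2.tc_unique (a := fun n => tc f n + tc g n)
    (F := fun z => f z + g z) hr (h1.add h2) (by
      filter_upwards [ball_mem_nhds (0 : ℂ) hr] with x hx
      have := (Pool.Agent.H713R2.hasSum_tc h1 hx).add (Pool.Agent.H713R2.hasSum_tc h2 hx)
      simpa only [add_mul] using this)
  rw [map_add]
  simp only [TS, PowerSeries.coeff_mk]
  rw [← h]

lemma TS_const (c : ℂ) : TS (fun _ => c) = PowerSeries.C c := by
  ext n
  have h := Pool.Agent.H713R2.tc_unique (a := fun n => if n = 0 then c else 0)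
    (F := fun _ : ℂ => c) one_pos (differentiableOn_const c) (by
      filter_upwards with x
      have := hasSum_ite_eq (0 : ℕ) c
      convert this using 2 with n
      split_ifs with hn
      · rw [hn, pow_zero, mul_one]
      · rw [zero_mul])
  simp only [TS, PowerSeries.coeff_mk, PowerSeries.coeff_C]
  rw [← h]

lemma TS_id : TS (fun z => z) = (PowerSeries.X : ℂ⟦X⟧) := by
  ext n
  have h := Pool.Agent.H713R2.tc_unique (a := fun n => if n = 1 then (1 : ℂ) else 0)
    (F := fun z : ℂ => z) one_pos differentiableOn_id (by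
      filter_upwards with x
      have := hasSum_ite_eq (1 : ℕ) x
      convert this using 2 with n
      split_ifs with hn
      · rw [hn, pow_one, one_mul]
      · rw [zero_mul])
  simp only [TS, PowerSeries.coeff_mk, PowerSeries.coeff_X]
  rw [← h]

lemma analyticAt_dslope {f : ℂ → ℂ} (hf : AnalyticAt ℂ f 0) : AnalyticAt ℂ (dslope f 0) 0 := by
  obtain ⟨p, hp⟩ := hf
  exact ⟨p.fslope, hp.has_fpower_series_dslope_fslope⟩

lemma eq_dslope (f : ℂ → ℂ) (w : ℂ) : f w = f 0 + w * dslope f 0 w := by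
  have := sub_smul_dslope f 0 w
  rw [sub_zero, smul_eq_mul] at this
  rw [this]
  ring

lemma tc_dslope {f : ℂ → ℂ} (hf : AnalyticAt ℂ f 0) (k : ℕ) :
    tc (dslope f 0) k = tc f (k + 1) := by
  have h1 : TS f = PowerSeries.C (f 0) + PowerSeries.X * TS (dslope f 0) := by
    have hid : AnalyticAt ℂ (fun z : ℂ => z) 0 := analyticAt_id
    have hm : AnalyticAt ℂ (fun z : ℂ => z * dslope f 0 z) 0 := hid.mul (analyticAt_dslope hf)
    rw [← TS_const, ← TS_id, ← TS_mul hid (analyticAt_dslope hf), ← TS_add analyticAt_const hm]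
    exact TS_congr (Eventually.of_forall fun z => eq_dslope f z)
  have h2 := congrArg (PowerSeries.coeff (k + 1)) h1
  rw [map_add, PowerSeries.coeff_succ_X_mul, PowerSeries.coeff_C, if_neg (Nat.succ_ne_zero k),
    zero_add] at h2
  simp only [TS, PowerSeries.coeff_mk] at h2
  exact h2.symm

theorem main {s : ℂ → ℂ} (hs : AnalyticAt ℂ s 0) (h0 : s 0 = 0) (M : ℕ) :
    ∀ Φ : ℂ → ℂ, AnalyticAt ℂ Φ 0 → (PowerSeries.X : ℂ⟦X⟧) ^ M ∣
      TS (fun z => Φ (s z)) - ∑ k ∈ Finset.range M, PowerSeries.C (tc Φ k) * (TS s) ^ k := by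
  have hX : (PowerSeries.X : ℂ⟦X⟧) ∣ TS s := by
    rw [PowerSeries.X_dvd_iff]
    simp [TS, Pool.Agent.H713R2.tc_zero, h0]
  induction M with
  | zero => intro Φ _; simp
  | succ M ih =>
    intro Φ hΦ
    have hΨ := analyticAt_dslope hΦ
    have hΨs : AnalyticAt ℂ (fun z => dslope Φ 0 (s z)) 0 := by
      have : AnalyticAt ℂ (dslope Φ 0) (s 0) := by rw [h0]; exact hΨ
      exact this.comp hs
    have h1 : TS (fun z => Φ (s z)) =
        PowerSeries.C (Φ 0) + TS s * TS (fun z => dslope Φ 0 (s z)) := by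
      have hm : AnalyticAt ℂ (fun z : ℂ => s z * dslope Φ 0 (s z)) 0 := hs.mul hΨs
      rw [← TS_const, ← TS_mul hs hΨs, ← TS_add analyticAt_const hm]
      exact TS_congr (Eventually.of_forall fun z => eq_dslope Φ (s z))
    have h2 : TS (fun z => Φ (s z)) -
        ∑ k ∈ Finset.range (M + 1), PowerSeries.C (tc Φ k) * (TS s) ^ k =
        TS s * (TS (fun z => dslope Φ 0 (s z)) -
          ∑ k ∈ Finset.range M, PowerSeries.C (tc (dslope Φ 0) k) * (TS s) ^ k) := by
      rw [Finset.sum_range_succ', h1, Pool.Agent.H713R2.tc_zero, mul_sub, Finset.mul_sum]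
      have h3 : ∀ k, TS s * (PowerSeries.C (tc (dslope Φ 0) k) * (TS s) ^ k) =
          PowerSeries.C (tc Φ (k + 1)) * (TS s) ^ (k + 1) := by
        intro k
        rw [tc_dslope hΦ]
        ring
      simp only [h3]
      ring
    rw [h2, pow_succ']
    exact mul_dvd_mul hX (ih _ hΨ)

end CompS

theorem comp : S_COMP := by
  intro Φ s R M hR hΦ hs h0
  exact CompS.main (hs.analyticAt (ball_mem_nhds (0 : ℂ) hR)) h0 M Φ hΦ

end Pool.Agent.TH775.AC
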