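import Mathlib
import Pool.Agent.TH775.AC.Stmts
import Pool.Agent.H73R3.Hull

set_option autoImplicit false

open Complex Topology Filter Metric MeasureTheory
open scoped Interval

namespace Pool.Agent.TH775.AC

namespace HullS

open Pool.Agent.H713R2 (tc)

lemma coef_int {F : ℂ → ℂ} (hF : DifferentiableOn ℂ F (ball 0 1)) {r : ℝ} (hr : 0 < r)
    (hr1 : r < 1) (k : ℕ) :
    ∫ θ in (0 : ℝ)..2 * Real.pi, F (circleMap 0 r θ) * ((circleMap 0 r θ)⁻¹) ^ k =
      2 * Real.pi * tc F k := by
  have h := Pool.Agent.H713R2.circleIntegral_tc hr hr1 hF k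
  rw [circleIntegral] at h
  have e : ∀ θ : ℝ, deriv (circleMap 0 r) θ • (F (circleMap 0 r θ) / (circleMap 0 r θ) ^ (k + 1)) =
      I * (F (circleMap 0 r θ) * ((circleMap 0 r θ)⁻¹) ^ k) := by
    intro θ
    have hne : circleMap 0 r θ ≠ 0 := circleMap_ne_center hr.ne'
    rw [deriv_circleMap, smul_eq_mul, inv_pow]
    field_simp
    ring
  simp only [e] at h
  rw [intervalIntegral.integral_const_mul] at h
  have hI : I ≠ 0 := I_ne_zero
  apply mul_left_cancel₀ hI
  rw [h]
  ring

lemma mean_int {F : ℂ → ℂ} (hF : DifferentiableOn ℂ F (ball 0 1)) {r : ℝ} (hr : 0 < r)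
    (hr1 : r < 1) :
    ∫ θ in (0 : ℝ)..2 * Real.pi, F (circleMap 0 r θ) = 2 * Real.pi * F 0 := by
  have h := coef_int hF hr hr1 0
  simp only [pow_zero, mul_one] at h
  rw [h, Pool.Agent.H713R2.tc_zero]

lemma conj_int (f : ℝ → ℂ) :
    ∫ θ in (0 : ℝ)..2 * Real.pi, (starRingEnd ℂ) (f θ) =
      (starRingEnd ℂ) (∫ θ in (0 : ℝ)..2 * Real.pi, f θ) := by
  rw [intervalIntegral.integral_of_le (by positivity), intervalIntegral.integral_of_le (by positivity)]
  exact integral_conj

lemma circle_eq (r θ : ℝ) : circleMap 0 r θ = r * cexp (θ * I) := by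
  rw [circleMap, zero_add]

lemma gam_cont (N : ℕ) : Continuous (gam N) := by
  unfold gam
  fun_prop

lemma CN_closed (N : ℕ) : IsClosed (CN N) :=
  (Pool.Agent.H73R3.compact_hull ((isCompact_sphere (0 : ℂ) 1).image (gam_cont N))).isClosed

theorem mem_r (N : ℕ) (q : ℂ → ℂ) (a : ℝ) (ha : 0 < a) (hq : DifferentiableOn ℂ q (ball 0 1))
    (h0 : q 0 = a) (hre : ∀ z ∈ ball (0 : ℂ) 1, a / 2 ≤ (q z).re) {r : ℝ} (hr : 0 < r)
    (hr1 : r < 1) : (fun j : Fin N => tc q ((j : ℕ) + 1) * r ^ ((j : ℕ) + 1) / a) ∈ CN N := by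
  have hin : ∀ θ : ℝ, circleMap 0 r θ ∈ ball (0 : ℂ) 1 := by
    intro θ
    rw [mem_ball_zero_iff, norm_circleMap_zero, abs_of_pos hr]
    exact hr1
  have hqc : Continuous (fun θ : ℝ => q (circleMap 0 r θ)) :=
    hq.continuousOn.comp_continuous (continuous_circleMap 0 r) hin
  set g : ℝ → ℝ := fun θ => 2 * (q (circleMap 0 r θ)).re / a - 1 with hg
  have hgc : Continuous g := by
    have : Continuous (fun θ : ℝ => (q (circleMap 0 r θ)).re) := continuous_re.comp hqc
    fun_prop
  have hg0 : ∀ θ, 0 ≤ g θ := by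
    intro θ
    have h1 := hre _ (hin θ)
    rw [hg]
    simp only
    rw [sub_nonneg, le_div_iff₀ ha]
    linarith
  have hgC : ∀ θ, (g θ : ℂ) = (1 / (a : ℂ)) * q (circleMap 0 r θ) +
      (1 / (a : ℂ)) * (starRingEnd ℂ) (q (circleMap 0 r θ)) - 1 := by
    intro θ
    rw [hg]
    simp only
    push_cast
    rw [re_eq_add_conj]
    ring
  set x : ℝ → ℂ := fun θ => cexp (-(θ * I)) with hx
  have hxc : Continuous x := by rw [hx]; fun_prop
  have hxs : ∀ θ, x θ ∈ sphere (0 : ℂ) 1 := by
    intro θ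
    rw [mem_sphere_zero_iff_norm, hx]
    simp only
    rw [← neg_mul, ← ofReal_neg, norm_exp_ofReal_mul_I]
  have hxr : ∀ θ, x θ = r * (circleMap 0 r θ)⁻¹ := by
    intro θ
    have hrc : (r : ℂ) ≠ 0 := by exact_mod_cast hr.ne'
    rw [circle_eq, hx]
    simp only
    rw [exp_neg, mul_inv]
    field_simp
  have hxconj : ∀ θ, x θ = (starRingEnd ℂ) ((r : ℂ)⁻¹ * circleMap 0 r θ) := by
    intro θ
    have hrc : (r : ℂ) ≠ 0 := by exact_mod_cast hr.ne'
    rw [circle_eq, inv_mul_cancel_left₀ hrc, ← exp_conj, map_mul, conj_I, conj_ofReal, hx]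
    simp only
    rw [mul_neg]
  -- total mass
  have hqi : IntervalIntegrable (fun θ : ℝ => q (circleMap 0 r θ)) volume 0 (2 * Real.pi) :=
    hqc.intervalIntegrable _ _
  have hmass : ∫ θ in (0 : ℝ)..2 * Real.pi, g θ = 2 * Real.pi := by
    have h1 : ((∫ θ in (0 : ℝ)..2 * Real.pi, g θ : ℝ) : ℂ) = 2 * Real.pi := by
      rw [← intervalIntegral.integral_ofReal]
      simp only [hgC]
      rw [intervalIntegral.integral_sub (by
          apply Continuous.intervalIntegrable
          exact (continuous_const.mul hqc).add (continuous_const.mul (continuous_conj.comp hqc)))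
        (by apply Continuous.intervalIntegrable; fun_prop),
        intervalIntegral.integral_add (by
          apply Continuous.intervalIntegrable; exact continuous_const.mul hqc) (by
          apply Continuous.intervalIntegrable
          exact continuous_const.mul (continuous_conj.comp hqc)),
        intervalIntegral.integral_const_mul, intervalIntegral.integral_const_mul, conj_int,
        mean_int hq hr hr1, h0]
      have ha' : (a : ℂ) ≠ 0 := by exact_mod_cast ha.ne'
      simp only [map_mul, conj_ofReal, map_ofNat, intervalIntegral.integral_const, sub_zero,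
        real_smul]
      push_cast
      field_simp
      ring
    exact_mod_cast h1
  -- the moments
  have hmom : ∀ k : ℕ, ∫ θ in (0 : ℝ)..2 * Real.pi, (g θ : ℂ) * x θ ^ (k + 1) =
      2 * Real.pi * (tc q (k + 1) * r ^ (k + 1) / a) := by
    intro k
    have e : ∀ θ, (g θ : ℂ) * x θ ^ (k + 1) =
        ((r : ℂ) ^ (k + 1) / a) * (q (circleMap 0 r θ) * ((circleMap 0 r θ)⁻¹) ^ (k + 1)) +
        (1 / (a : ℂ)) * (starRingEnd ℂ) (q (circleMap 0 r θ) *
          ((r : ℂ)⁻¹ * circleMap 0 r θ) ^ (k + 1)) -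
        (starRingEnd ℂ) (((r : ℂ)⁻¹ * circleMap 0 r θ) ^ (k + 1)) := by
      intro θ
      rw [hgC, map_mul, map_pow, ← hxconj, sub_mul, add_mul, one_mul]
      congr 2
      · rw [hxr, mul_pow]
        ring
      · ring
    have hzc : Continuous (fun θ : ℝ => circleMap 0 r θ) := continuous_circleMap 0 r
    have hzic : Continuous (fun θ : ℝ => (circleMap 0 r θ)⁻¹) :=
      hzc.inv₀ fun θ => circleMap_ne_center hr.ne'
    have c1 : Continuous (fun θ : ℝ => ((r : ℂ) ^ (k + 1) / a) *
        (q (circleMap 0 r θ) * ((circleMap 0 r θ)⁻¹) ^ (k + 1))) :=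
      continuous_const.mul (hqc.mul (hzic.pow _))
    have c2 : Continuous (fun θ : ℝ => (1 / (a : ℂ)) * (starRingEnd ℂ) (q (circleMap 0 r θ) *
          ((r : ℂ)⁻¹ * circleMap 0 r θ) ^ (k + 1))) :=
      continuous_const.mul (continuous_conj.comp (hqc.mul ((continuous_const.mul hzc).pow _)))
    have c3 : Continuous (fun θ : ℝ =>
        (starRingEnd ℂ) (((r : ℂ)⁻¹ * circleMap 0 r θ) ^ (k + 1))) :=
      continuous_conj.comp ((continuous_const.mul hzc).pow _)
    have c12 : Continuous (fun θ : ℝ => ((r : ℂ) ^ (k + 1) / a) *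
        (q (circleMap 0 r θ) * ((circleMap 0 r θ)⁻¹) ^ (k + 1)) +
        (1 / (a : ℂ)) * (starRingEnd ℂ) (q (circleMap 0 r θ) *
          ((r : ℂ)⁻¹ * circleMap 0 r θ) ^ (k + 1))) := c1.add c2
    simp only [e]
    rw [intervalIntegral.integral_sub (c12.intervalIntegrable _ _)
      (c3.intervalIntegrable _ _), intervalIntegral.integral_add (c1.intervalIntegrable _ _)
      (c2.intervalIntegrable _ _), intervalIntegral.integral_const_mul,
      intervalIntegral.integral_const_mul, conj_int, conj_int, coef_int hq hr hr1]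
    have i2 := mean_int (F := fun z => q z * ((r : ℂ)⁻¹ * z) ^ (k + 1))
      (hq.mul (by fun_prop)) hr hr1
    have i3 := mean_int (F := fun z => ((r : ℂ)⁻¹ * z) ^ (k + 1)) (by fun_prop) hr hr1
    simp only [mul_zero, ne_eq, Nat.add_eq_zero_iff, one_ne_zero, and_false, not_false_eq_true,
      zero_pow] at i2 i3
    rw [i2, i3]
    simp only [map_zero, mul_zero, add_zero, sub_zero]
    ring
  by_contra hcon
  obtain ⟨f, u, hf, hu⟩ := geometric_hahn_banach_closed_point (convex_convexHull ℝ _)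
    (CN_closed N) hcon
  set φ : ℝ → (Fin N → ℂ) := fun θ => (g θ) • gam N (x θ) with hφ
  have hφc : Continuous φ := hgc.smul ((gam_cont N).comp hxc)
  have hint : ∫ θ in (0 : ℝ)..2 * Real.pi, φ θ =
      (2 * Real.pi) • (fun j : Fin N => tc q ((j : ℕ) + 1) * r ^ ((j : ℕ) + 1) / a) := by
    funext j
    have h1 := (ContinuousLinearMap.proj (R := ℝ) (φ := fun _ : Fin N => ℂ) j).intervalIntegral_comp_comm
      (hφc.intervalIntegrable (μ := volume) 0 (2 * Real.pi))
    have h2 : (ContinuousLinearMap.proj (R := ℝ) (φ := fun _ : Fin N => ℂ) j)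
        (∫ θ in (0 : ℝ)..2 * Real.pi, φ θ) = (∫ θ in (0 : ℝ)..2 * Real.pi, φ θ) j := rfl
    rw [← h2, ← h1]
    have h3 : ∀ θ, (ContinuousLinearMap.proj (R := ℝ) (φ := fun _ : Fin N => ℂ) j) (φ θ) =
        (g θ : ℂ) * x θ ^ ((j : ℕ) + 1) := by
      intro θ
      rw [hφ]
      simp [gam]
    simp only [h3]
    rw [hmom]
    simp
  have h1 := f.intervalIntegral_comp_comm (hφc.intervalIntegrable (μ := volume) 0 (2 * Real.pi))
  rw [hint, map_smul, smul_eq_mul] at h1
  have h2 : 0 ≤ ∫ θ in (0 : ℝ)..2 * Real.pi, (g θ * u - f (φ θ)) := by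
    apply intervalIntegral.integral_nonneg (by positivity)
    intro θ _
    rw [hφ]
    simp only
    rw [map_smul, smul_eq_mul, ← mul_sub]
    refine mul_nonneg (hg0 θ) ?_
    have := hf _ (subset_convexHull ℝ _ ⟨x θ, hxs θ, rfl⟩)
    linarith
  rw [intervalIntegral.integral_sub (by
      apply Continuous.intervalIntegrable; exact hgc.mul continuous_const) (by
      apply Continuous.intervalIntegrable; exact f.continuous.comp hφc),
    intervalIntegral.integral_mul_const, hmass, h1] at h2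
  have h3 : 0 < 2 * Real.pi := by positivity
  nlinarith

end HullS

theorem hull : S_HULL := by
  intro N q a ha hq h0 hre
  have hc : Continuous (fun r : ℝ => (fun j : Fin N =>
      Pool.Agent.H713R2.tc q ((j : ℕ) + 1) * (r : ℂ) ^ ((j : ℕ) + 1) / a)) := by
    fun_prop
  have ht : Tendsto (fun r : ℝ => (fun j : Fin N =>
      Pool.Agent.H713R2.tc q ((j : ℕ) + 1) * (r : ℂ) ^ ((j : ℕ) + 1) / a)) (𝓝[<] 1)
      (𝓝 (fun j : Fin N => Pool.Agent.H713R2.tc q ((j : ℕ) + 1) / a)) := by
    have h1 := (hc.tendsto 1).mono_left (nhdsWithin_le_nhds (s := Set.Iio (1 : ℝ)))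
    simpa using h1
  refine (HullS.CN_closed N).mem_of_tendsto ht ?_
  filter_upwards [Ioo_mem_nhdsLT (show (0 : ℝ) < 1 by norm_num)] with r hr
  exact HullS.mem_r N q a ha hq h0 hre hr.1 hr.2

end Pool.Agent.TH775.AC
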